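import Mathlib
import Pool.Agent.helper82.OG.Spec

/-!
# Project og, module PIG: a scale at which the rows do not grow
-/

set_option autoImplicit false

open Finset Filter Topology

namespace Pool.Agent.OG

open Pool.Agent.EP

theorem PIG_mono (r Y Y' : ℕ) (h : Y ≤ Y') : #(TT r Y) ≤ #(TT r Y') := by
  unfold TT
  exact card_le_card (filter_subset_filter _ (Ioc_subset_Ioc_right h))

theorem PIG_le (r Y : ℕ) : #(TT r Y) ≤ Y := by
  unfold TT
  refine (card_filter_le _ _).trans ?_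
  rw [Nat.card_Ioc, Nat.sub_zero]

/-- Polynomials in the logarithm are smaller than powers. -/
theorem PIG_log (δ : ℝ) (hδ : 0 < δ) : ∃ Y₀ : ℕ, ∀ Y : ℕ, Y₀ ≤ Y →
    5 * ((Nat.log 4 Y : ℝ) + 1) ^ 2 ≤ (Y : ℝ) ^ δ := by
  have hr : (1 : ℝ) < (4 : ℝ) ^ δ := Real.one_lt_rpow (by norm_num) hδ
  have hr0 : (0 : ℝ) < (4 : ℝ) ^ δ := by linarith
  have ht := tendsto_pow_const_div_const_pow_of_one_lt 2 hr
  have he : (0 : ℝ) < 1 / (5 * (4 : ℝ) ^ δ) := by positivity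
  have hev := ht.eventually (gt_mem_nhds he)
  obtain ⟨N, hN⟩ := eventually_atTop.1 hev
  refine ⟨4 ^ N, fun Y hY => ?_⟩
  have hY0 : Y ≠ 0 := by
    have : 0 < 4 ^ N := by positivity
    omega
  have hn : N ≤ Nat.log 4 Y := (Nat.le_log_iff_pow_le (by norm_num) hY0).2 hY
  have h1 := hN (Nat.log 4 Y + 1) (by omega)
  have h2 : (4 : ℝ) ^ (Nat.log 4 Y) ≤ (Y : ℝ) := by
    exact_mod_cast Nat.pow_log_le_self 4 hY0
  have h3 : ((4 : ℝ) ^ δ) ^ (Nat.log 4 Y) ≤ (Y : ℝ) ^ δ := by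
    rw [← Real.rpow_natCast, ← Real.rpow_mul (by norm_num), mul_comm, Real.rpow_mul (by norm_num),
      Real.rpow_natCast]
    exact Real.rpow_le_rpow (by positivity) h2 hδ.le
  rw [div_lt_iff₀ (by positivity)] at h1
  push_cast at h1
  have h4 : 1 / (5 * (4 : ℝ) ^ δ) * ((4 : ℝ) ^ δ) ^ (Nat.log 4 Y + 1) =
      ((4 : ℝ) ^ δ) ^ (Nat.log 4 Y) / 5 := by
    rw [pow_succ]
    field_simp
  rw [h4] at h1
  linarith

theorem PIG : PIG_stmt := by
  intro δ hδ hδ1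
  obtain ⟨k, hk⟩ := exists_nat_gt (1 / δ)
  have hk0 : 0 < k := by
    rcases Nat.eq_zero_or_pos k with h | h
    · exfalso
      subst h
      have : 0 < 1 / δ := by positivity
      simp at hk
      linarith
    · exact h
  have hkR : (0 : ℝ) < k := by exact_mod_cast hk0
  have hkδ : 1 / (k : ℝ) ≤ δ := by
    rw [div_le_iff₀ hkR]
    rw [div_lt_iff₀ hδ] at hk
    linarith
  obtain ⟨Y₀, hY₀⟩ := PIG_log δ hδ
  refine ⟨2 * 4 ^ (2 * k), Y₀ + 1, fun Y₁ R hY₁ hR ht => ?_⟩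
  have hYpos : Y₁ ≠ 0 := by omega
  have hY1R : (1 : ℝ) ≤ (Y₁ : ℝ) := by exact_mod_cast (by omega : 1 ≤ Y₁)
  set n := Nat.log 4 Y₁ with hn
  have hn1 : 4 ^ n ≤ Y₁ := Nat.pow_log_le_self 4 hYpos
  have hn2 : Y₁ < 4 ^ (n + 1) := Nat.lt_pow_succ_log_self (by norm_num) Y₁
  set I := n / k with hI
  have hI1 : I * k ≤ n := Nat.div_mul_le_self n k
  have hI2 : n + 1 ≤ (I + 1) * k := by
    have := Nat.lt_div_mul_add (a := n) hk0
    have h2 : (I + 1) * k = n / k * k + k := by rw [hI]; ring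
    omega
  have hIn : I ≤ n := Nat.div_le_self n k
  -- the scales
  have hYi : ∀ i ≤ I, ((4 ^ i * Y₁ : ℕ) : ℝ) ≤ (Y₁ : ℝ) ^ (1 + δ) := by
    intro i hi
    have h1 : ((4 : ℝ) ^ i) ≤ (Y₁ : ℝ) ^ (1 / (k : ℝ)) := by
      have h2 : ((4 : ℝ) ^ i) ^ k ≤ (Y₁ : ℝ) := by
        rw [← pow_mul]
        calc (4 : ℝ) ^ (i * k) ≤ 4 ^ n := by
              apply pow_le_pow_right₀ (by norm_num)
              exact (Nat.mul_le_mul_right k hi).trans hI1
          _ ≤ Y₁ := by exact_mod_cast hn1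
      have h3 : ((4 : ℝ) ^ i) = (((4 : ℝ) ^ i) ^ k) ^ (1 / (k : ℝ)) := by
        rw [← Real.rpow_natCast ((4 : ℝ) ^ i) k, ← Real.rpow_mul (by positivity),
          mul_one_div_cancel hkR.ne', Real.rpow_one]
      rw [h3]
      exact Real.rpow_le_rpow (by positivity) h2 (by positivity)
    have h2 : (Y₁ : ℝ) ^ (1 / (k : ℝ)) ≤ (Y₁ : ℝ) ^ δ := Real.rpow_le_rpow_of_exponent_le hY1R hkδ
    rw [Real.rpow_add (by linarith), Real.rpow_one]
    push_cast
    rw [mul_comm]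
    exact mul_le_mul_of_nonneg_left (h1.trans h2) (by linarith)
  -- the scale of a row
  have hscale : ∀ r ∈ R, ∃ i, i ≤ I ∧
      #(TT r (4 ^ (i + 1) * Y₁)) ≤ 4 ^ (2 * k) * #(TT r (4 ^ i * Y₁)) := by
    intro r hr
    by_contra hcon
    push Not at hcon
    have hind : ∀ j, j ≤ I + 1 → (4 ^ (2 * k)) ^ j ≤ #(TT r (4 ^ j * Y₁)) := by
      intro j
      induction j with
      | zero =>
        intro _
        simpa using ht r hr
      | succ j ih =>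
        intro hj
        have h1 := ih (by omega)
        have h2 := hcon j (by omega)
        calc (4 ^ (2 * k)) ^ (j + 1) = 4 ^ (2 * k) * (4 ^ (2 * k)) ^ j := by ring
          _ ≤ 4 ^ (2 * k) * #(TT r (4 ^ j * Y₁)) := Nat.mul_le_mul_left _ h1
          _ ≤ _ := h2.le
    have h1 := hind I (by omega)
    have h2 := hcon I le_rfl
    have h3 : (4 ^ (2 * k)) ^ (I + 1) < #(TT r (4 ^ (I + 1) * Y₁)) := by
      calc (4 ^ (2 * k)) ^ (I + 1) = 4 ^ (2 * k) * (4 ^ (2 * k)) ^ I := by ring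
        _ ≤ 4 ^ (2 * k) * #(TT r (4 ^ I * Y₁)) := Nat.mul_le_mul_left _ h1
        _ < _ := h2
    have h4 : #(TT r (4 ^ (I + 1) * Y₁)) ≤ 4 ^ (2 * n + 2) := by
      calc #(TT r (4 ^ (I + 1) * Y₁)) ≤ 4 ^ (I + 1) * Y₁ := PIG_le _ _
        _ ≤ 4 ^ (n + 1) * 4 ^ (n + 1) := by
            apply Nat.mul_le_mul _ hn2.le
            exact Nat.pow_le_pow_right (by norm_num) (by omega)
        _ = 4 ^ (2 * n + 2) := by rw [← pow_add]; congr 1; ring
    have h5 : 4 ^ (2 * n + 2) ≤ (4 ^ (2 * k)) ^ (I + 1) := by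
      rw [← pow_mul]
      apply Nat.pow_le_pow_right (by norm_num)
      have : 2 * k * (I + 1) = 2 * ((I + 1) * k) := by ring
      omega
    omega
  choose! i hi1 hi2 using hscale
  have hmaps : ∀ r ∈ R, (i r, Nat.log 2 (#(TT r (4 ^ (i r) * Y₁)))) ∈
      range (I + 1) ×ˢ range (4 * n + 5) := by
    intro r hr
    rw [mem_product, mem_range, mem_range]
    refine ⟨by have := hi1 r hr; omega, ?_⟩
    have h1 : #(TT r (4 ^ (i r) * Y₁)) ≤ 4 ^ (2 * n + 2) := by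
      calc #(TT r (4 ^ (i r) * Y₁)) ≤ 4 ^ (i r) * Y₁ := PIG_le _ _
        _ ≤ 4 ^ (n + 1) * 4 ^ (n + 1) := by
            apply Nat.mul_le_mul _ hn2.le
            exact Nat.pow_le_pow_right (by norm_num) (by have := hi1 r hr; omega)
        _ = 4 ^ (2 * n + 2) := by rw [← pow_add]; congr 1; ring
    have h2 : Nat.log 2 (#(TT r (4 ^ (i r) * Y₁))) ≤ Nat.log 2 (4 ^ (2 * n + 2)) :=
      Nat.log_mono_right h1
    have h3 : (4 : ℕ) ^ (2 * n + 2) = 2 ^ (4 * n + 4) := by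
      rw [show (4 : ℕ) = 2 ^ 2 by norm_num, ← pow_mul]
      congr 1
      ring
    rw [h3, Nat.log_pow (by norm_num)] at h2
    omega
  have hne : (range (I + 1) ×ˢ range (4 * n + 5)).Nonempty :=
    ⟨(0, 0), by rw [mem_product, mem_range, mem_range]; exact ⟨Nat.succ_pos _, Nat.succ_pos _⟩⟩
  have hcard : (0 : ℝ) < #(range (I + 1) ×ˢ range (4 * n + 5)) := by
    exact_mod_cast hne.card_pos
  obtain ⟨y, hy, hfib⟩ := exists_le_card_fiber_of_nsmul_le_card_of_maps_to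
    (s := R) (t := range (I + 1) ×ˢ range (4 * n + 5))
    (f := fun r => (i r, Nat.log 2 (#(TT r (4 ^ (i r) * Y₁)))))
    (b := (#R : ℝ) / #(range (I + 1) ×ˢ range (4 * n + 5))) hmaps hne
    (by rw [nsmul_eq_mul, mul_div_cancel₀ _ hcard.ne'])
  rw [mem_product, mem_range, mem_range] at hy
  refine ⟨4 ^ y.1 * Y₁, 2 ^ y.2, R.filter (fun r =>
    (i r, Nat.log 2 (#(TT r (4 ^ (i r) * Y₁)))) = y), filter_subset _ _, ?_, ?_, ?_, ?_, ?_⟩
  · exact Nat.le_mul_of_pos_left _ (by positivity)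
  · exact hYi _ (by omega)
  · exact Nat.one_le_two_pow
  · rw [div_le_iff₀ hcard] at hfib
    refine hfib.trans (mul_le_mul_of_nonneg_left ?_ (Nat.cast_nonneg _))
    have h1 := hY₀ Y₁ (by omega)
    refine le_trans ?_ h1
    rw [card_product, card_range, card_range]
    push_cast
    have h2 : (I : ℝ) ≤ n := by exact_mod_cast hIn
    have h3 : (0 : ℝ) ≤ I := Nat.cast_nonneg _
    have h4 : (0 : ℝ) ≤ n := Nat.cast_nonneg _
    nlinarith
  · intro r hr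
    rw [mem_filter] at hr
    obtain ⟨hrR, hry⟩ := hr
    have e1 : i r = y.1 := congrArg Prod.fst hry
    have e2 : Nat.log 2 (#(TT r (4 ^ (i r) * Y₁))) = y.2 := by rw [← hry]
    have hpos : #(TT r (4 ^ (i r) * Y₁)) ≠ 0 := by
      have h1 := ht r hrR
      have h2 := PIG_mono r Y₁ (4 ^ (i r) * Y₁) (Nat.le_mul_of_pos_left _ (by positivity))
      omega
    have h1 := Nat.pow_log_le_self 2 hpos
    have h2 := Nat.lt_pow_succ_log_self (b := 2) (by norm_num) (#(TT r (4 ^ (i r) * Y₁)))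
    have h3 := hi2 r hrR
    rw [e2] at h1 h2
    rw [e1] at h1 h2 h3
    refine ⟨h1, ?_⟩
    have h4 : 4 * (4 ^ y.1 * Y₁) = 4 ^ (y.1 + 1) * Y₁ := by ring
    rw [h4]
    calc #(TT r (4 ^ (y.1 + 1) * Y₁)) ≤ 4 ^ (2 * k) * #(TT r (4 ^ y.1 * Y₁)) := h3
      _ ≤ 4 ^ (2 * k) * 2 ^ (y.2 + 1) := Nat.mul_le_mul_left _ h2.le
      _ = 2 * 4 ^ (2 * k) * 2 ^ y.2 := by ring

end Pool.Agent.OG
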